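import Mathlib

/-! Normal rational curves as cones of vectors: change of the parameter, the curves through the
standard frame. -/

set_option autoImplicit false

namespace Pool.Agent.U59.ARC

open Polynomial Finset

variable {K : Type} [Field K] {r : ℕ}

/-- the vector `(t^r, ..., t, 1)` -/
def mom (r : ℕ) (t : K) : Fin (r + 1) → K := fun i => t ^ (r - (i : ℕ))

/-- the vector `(1, 0, ..., 0)` -/
def mInf (K : Type) [Field K] (r : ℕ) : Fin (r + 1) → K := Pi.single 0 1

/-- `v` is a nonzero multiple of a vector of the curve -/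
def OnCurve (g : (Fin (r + 1) → K) ≃ₗ[K] (Fin (r + 1) → K)) (v : Fin (r + 1) → K) : Prop :=
  ∃ c : K, c ≠ 0 ∧ ((∃ t : K, v = c • g (mom r t)) ∨ v = c • g (mInf K r))

theorem onCurve_smul (g : (Fin (r + 1) → K) ≃ₗ[K] (Fin (r + 1) → K)) {c : K} (hc : c ≠ 0)
    {v : Fin (r + 1) → K} (h : OnCurve g v) : OnCurve g (c • v) := by
  obtain ⟨d, hd, h⟩ := h
  refine ⟨c * d, mul_ne_zero hc hd, ?_⟩
  rcases h with ⟨t, h⟩ | h
  · exact Or.inl ⟨t, by rw [h, smul_smul]⟩
  · exact Or.inr (by rw [h, smul_smul])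

theorem onCurve_smul_iff (g : (Fin (r + 1) → K) ≃ₗ[K] (Fin (r + 1) → K)) {c : K} (hc : c ≠ 0)
    {v : Fin (r + 1) → K} : OnCurve g (c • v) ↔ OnCurve g v := by
  refine ⟨fun h => ?_, onCurve_smul g hc⟩
  have := onCurve_smul g (inv_ne_zero hc) h
  rwa [smul_smul, inv_mul_cancel₀ hc, one_smul] at this

/-- the polynomial of a linear form -/
noncomputable def pf (φ : (Fin (r + 1) → K) →ₗ[K] K) : K[X] :=
  ∑ j : Fin (r + 1), C (φ (Pi.single j 1)) * X ^ (r - (j : ℕ))

theorem vec_eq (x : Fin (r + 1) → K) : x = ∑ j, x j • (Pi.single j (1 : K) : Fin (r + 1) → K) := by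
  ext i
  simp [Finset.sum_apply, Pi.single_apply]

theorem pf_eval (φ : (Fin (r + 1) → K) →ₗ[K] K) (t : K) : (pf φ).eval t = φ (mom r t) := by
  conv_rhs => rw [vec_eq (mom r t)]
  rw [map_sum, pf, eval_finsetSum]
  refine sum_congr rfl fun j _ => ?_
  rw [map_smul, smul_eq_mul, eval_mul, eval_C, eval_pow, eval_X, mom, mul_comm]

theorem pf_coeff (φ : (Fin (r + 1) → K) →ₗ[K] K) (i : Fin (r + 1)) :
    (pf φ).coeff (r - (i : ℕ)) = φ (Pi.single i 1) := by
  rw [pf, finsetSum_coeff, Finset.sum_eq_single i]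
  · simp
  · intro j _ hj
    rw [coeff_C_mul, coeff_X_pow, if_neg, mul_zero]
    intro h
    apply hj
    ext
    have := i.2
    have := j.2
    omega
  · intro h
    exact absurd (mem_univ _) h

theorem pf_natDegree (φ : (Fin (r + 1) → K) →ₗ[K] K) : (pf φ).natDegree ≤ r := by
  refine natDegree_sum_le_of_forall_le _ _ fun j _ => ?_
  exact (natDegree_C_mul_X_pow_le _ _).trans (Nat.sub_le _ _)

theorem pf_top (φ : (Fin (r + 1) → K) →ₗ[K] K) : (pf φ).coeff r = φ (mInf K r) := by
  have := pf_coeff φ 0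
  simpa [mInf] using this

theorem eq_zero_of_pf {φ : (Fin (r + 1) → K) →ₗ[K] K} (h : pf φ = 0) : φ = 0 := by
  refine LinearMap.ext fun x => ?_
  rw [vec_eq x, map_sum, LinearMap.zero_apply]
  refine Finset.sum_eq_zero fun j _ => ?_
  rw [map_smul, ← pf_coeff, h, coeff_zero, smul_zero]

theorem top_of_mom [Fintype K] (hq : r < Fintype.card K) (W : Submodule K (Fin (r + 1) → K))
    (h : ∀ t, mom r t ∈ W) : W = ⊤ := by
  by_contra hW
  obtain ⟨φ, hφ, hW2⟩ := Submodule.exists_le_ker_of_lt_top W (lt_top_iff_ne_top.2 hW)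
  apply hφ
  apply eq_zero_of_pf
  refine Polynomial.eq_zero_of_natDegree_lt_card_of_eval_eq_zero (pf φ) (f := fun x : K => x)
    Function.injective_id (fun t => ?_) (lt_of_le_of_lt (pf_natDegree φ) hq)
  rw [pf_eval]
  exact hW2 (h t)

/-- the linear map given by `r + 1` polynomials -/
noncomputable def Lp (P : Fin (r + 1) → K[X]) : (Fin (r + 1) → K) →ₗ[K] (Fin (r + 1) → K) where
  toFun x i := ∑ j : Fin (r + 1), x j * (P i).coeff (r - (j : ℕ))
  map_add' x y := by
    ext i
    simp [add_mul, Finset.sum_add_distrib]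
  map_smul' c x := by
    ext i
    simp [Finset.mul_sum, mul_assoc]

theorem Lp_mom (P : Fin (r + 1) → K[X]) (hP : ∀ i, (P i).natDegree ≤ r) (t : K) (i : Fin (r + 1)) :
    Lp P (mom r t) i = (P i).eval t := by
  rw [eval_eq_sum_range' (Nat.lt_succ_of_le (hP i)), ← Finset.sum_range_reflect, Finset.sum_range]
  change ∑ j : Fin (r + 1), mom r t j * (P i).coeff (r - (j : ℕ)) = _
  refine sum_congr rfl fun j _ => ?_
  have : r.succ - 1 - (j : ℕ) = r - j := by omega
  rw [mom, this, mul_comm]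

theorem Lp_mInf (P : Fin (r + 1) → K[X]) (i : Fin (r + 1)) :
    Lp P (mInf K r) i = (P i).coeff r := by
  change ∑ j : Fin (r + 1), mInf K r j * (P i).coeff (r - (j : ℕ)) = _
  rw [Finset.sum_eq_single 0]
  · simp [mInf]
  · intro j _ hj
    simp [mInf, Pi.single_apply, hj]
  · intro h
    exact absurd (mem_univ _) h

theorem exists_equiv (f : (Fin (r + 1) → K) →ₗ[K] (Fin (r + 1) → K))
    (h : LinearMap.range f = ⊤) :
    ∃ g : (Fin (r + 1) → K) ≃ₗ[K] (Fin (r + 1) → K), ∀ x, g x = f x :=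
  ⟨LinearEquiv.ofBijective f ⟨LinearMap.injective_iff_surjective.2 (LinearMap.range_eq_top.1 h),
    LinearMap.range_eq_top.1 h⟩, fun _ => rfl⟩

theorem top_of_single (W : Submodule K (Fin (r + 1) → K))
    (h : ∀ i, (Pi.single i (1 : K) : Fin (r + 1) → K) ∈ W) : W = ⊤ := by
  rw [eq_top_iff]
  intro x _
  rw [vec_eq x]
  exact Submodule.sum_mem _ fun i _ => Submodule.smul_mem _ _ (h i)

/-- The change of the parameter `t ↦ s + 1 / t`. -/
theorem exists_moebius [Fintype K] (hq : r < Fintype.card K) (s : K) :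
    ∃ S : (Fin (r + 1) → K) ≃ₗ[K] (Fin (r + 1) → K), S (mInf K r) = mom r s ∧
      S (mom r 0) = mInf K r ∧ ∀ t : K, t ≠ 0 → S (mom r t) = t ^ r • mom r (s + t⁻¹) := by
  set P : Fin (r + 1) → K[X] := fun i => (C s * X + 1) ^ (r - (i : ℕ)) * X ^ (i : ℕ) with hPdef
  have hP : ∀ i, (P i).natDegree ≤ r := by
    intro i
    have h1 : (C s * X + 1 : K[X]).natDegree ≤ 1 := by
      simpa using natDegree_linear_le (a := s) (b := 1)
    have h2 : ((C s * X + 1 : K[X]) ^ (r - (i : ℕ))).natDegree ≤ (r - i) * 1 :=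
      natDegree_pow_le_of_le _ h1
    have h3 := natDegree_mul_le (p := (C s * X + 1 : K[X]) ^ (r - (i : ℕ))) (q := X ^ (i : ℕ))
    rw [natDegree_X_pow] at h3
    have := i.2
    simp only [hPdef]
    omega
  have e1 : Lp P (mInf K r) = mom r s := by
    ext i
    rw [Lp_mInf]
    have h1 : (C s * X + 1 : K[X]).natDegree ≤ 1 := by
      simpa using natDegree_linear_le (a := s) (b := 1)
    have h2 : r = (r - (i : ℕ)) + i := by
      have := i.2
      omega
    have h3 : (P i).coeff r = ((C s * X + 1 : K[X]) ^ (r - (i : ℕ))).coeff (r - i) := by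
      conv_lhs => rw [h2]
      simp only [hPdef]
      exact coeff_mul_X_pow _ _ _
    rw [h3]
    have h4 := coeff_pow_of_natDegree_le (m := r - (i : ℕ)) h1
    rw [mul_one] at h4
    rw [h4, mom]
    simp [coeff_one]
  have e2 : Lp P (mom r 0) = mInf K r := by
    ext i
    rw [Lp_mom P hP]
    simp only [hPdef, mInf, Pi.single_apply]
    by_cases hi : i = 0
    · subst hi
      simp
    · have : (i : ℕ) ≠ 0 := fun h => hi (Fin.ext h)
      simp [hi, this]
  have e3 : ∀ t : K, t ≠ 0 → Lp P (mom r t) = t ^ r • mom r (s + t⁻¹) := by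
    intro t ht
    ext i
    rw [Lp_mom P hP]
    simp only [hPdef, mom, Pi.smul_apply, smul_eq_mul, eval_mul, eval_pow, eval_add, eval_C,
      eval_X, eval_one]
    have h2 : t ^ r = t ^ (r - (i : ℕ)) * t ^ (i : ℕ) := by
      rw [← pow_add]
      congr 1
      have := i.2
      omega
    rw [h2]
    have h3 : s * t + 1 = t * (s + t⁻¹) := by
      field_simp
    rw [h3, mul_pow]
    ring
  have htop : LinearMap.range (Lp P) = ⊤ := by
    apply top_of_mom hq
    intro u
    by_cases hu : u = s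
    · rw [hu]
      exact ⟨_, e1⟩
    · have hu' : u - s ≠ 0 := sub_ne_zero.2 hu
      have h := e3 (u - s)⁻¹ (inv_ne_zero hu')
      rw [inv_inv, add_sub_cancel] at h
      have h2 : mom r u = ((u - s)⁻¹ ^ r)⁻¹ • Lp P (mom r (u - s)⁻¹) := by
        rw [h, smul_smul, inv_mul_cancel₀ (pow_ne_zero _ (inv_ne_zero hu')), one_smul]
      rw [h2]
      exact Submodule.smul_mem _ _ ⟨_, rfl⟩
  obtain ⟨S, hS⟩ := exists_equiv (Lp P) htop
  exact ⟨S, by rw [hS, e1], by rw [hS, e2], fun t ht => by rw [hS, e3 t ht]⟩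

/-- Every vector of the curve can be made the vector at infinity. -/
theorem reparam [Fintype K] (hq : r < Fintype.card K)
    (g : (Fin (r + 1) → K) ≃ₗ[K] (Fin (r + 1) → K)) {v : Fin (r + 1) → K} (hv : OnCurve g v) :
    ∃ g' : (Fin (r + 1) → K) ≃ₗ[K] (Fin (r + 1) → K),
      (∀ w, OnCurve g' w ↔ OnCurve g w) ∧ g' (mInf K r) = v := by
  -- scaling
  have hscale : ∀ (g : (Fin (r + 1) → K) ≃ₗ[K] (Fin (r + 1) → K)) (c : K), c ≠ 0 →
      ∃ g' : (Fin (r + 1) → K) ≃ₗ[K] (Fin (r + 1) → K), (∀ x, g' x = c • g x) ∧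
        ∀ w, OnCurve g' w ↔ OnCurve g w := by
    intro g c hc
    refine ⟨g.trans (LinearEquiv.smulOfNeZero K _ c hc), fun x => rfl, fun w => ?_⟩
    constructor
    · rintro ⟨d, hd, h⟩
      refine ⟨d * c, mul_ne_zero hd hc, ?_⟩
      rcases h with ⟨t, h⟩ | h
      · exact Or.inl ⟨t, by rw [h, mul_smul]; rfl⟩
      · exact Or.inr (by rw [h, mul_smul]; rfl)
    · rintro ⟨d, hd, h⟩
      refine ⟨d * c⁻¹, mul_ne_zero hd (inv_ne_zero hc), ?_⟩
      rcases h with ⟨t, h⟩ | h
      · refine Or.inl ⟨t, ?_⟩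
        change w = (d * c⁻¹) • (c • g (mom r t))
        rw [h, smul_smul, mul_assoc, inv_mul_cancel₀ hc, mul_one]
      · refine Or.inr ?_
        change w = (d * c⁻¹) • (c • g (mInf K r))
        rw [h, smul_smul, mul_assoc, inv_mul_cancel₀ hc, mul_one]
  obtain ⟨c, hc, ⟨s, h⟩ | h⟩ := hv
  · obtain ⟨S, h1, h2, h3⟩ := exists_moebius hq s
    obtain ⟨g', hg', hg''⟩ := hscale (S.trans g) c hc
    refine ⟨g', fun w => (hg'' w).trans ?_, ?_⟩
    · constructor
      · rintro ⟨d, hd, ⟨t, hw⟩ | hw⟩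
        · by_cases ht : t = 0
          · refine ⟨d, hd, Or.inr ?_⟩
            rw [hw, ht, LinearEquiv.trans_apply, h2]
          · refine ⟨d * t ^ r, mul_ne_zero hd (pow_ne_zero _ ht), Or.inl ⟨s + t⁻¹, ?_⟩⟩
            rw [hw, LinearEquiv.trans_apply, h3 t ht, map_smul, smul_smul]
        · refine ⟨d, hd, Or.inl ⟨s, ?_⟩⟩
          rw [hw, LinearEquiv.trans_apply, h1]
      · rintro ⟨d, hd, ⟨u, hw⟩ | hw⟩
        · by_cases hu : u = s
          · refine ⟨d, hd, Or.inr ?_⟩
            rw [hw, hu, LinearEquiv.trans_apply, h1]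
          · have hu' : (u - s)⁻¹ ≠ 0 := inv_ne_zero (sub_ne_zero.2 hu)
            have h4 := h3 _ hu'
            rw [inv_inv, add_sub_cancel] at h4
            refine ⟨d * ((u - s)⁻¹ ^ r)⁻¹, mul_ne_zero hd (inv_ne_zero (pow_ne_zero _ hu')),
              Or.inl ⟨(u - s)⁻¹, ?_⟩⟩
            rw [hw, LinearEquiv.trans_apply, h4, map_smul, smul_smul, mul_assoc,
              inv_mul_cancel₀ (pow_ne_zero _ hu'), mul_one]
        · refine ⟨d, hd, Or.inl ⟨0, ?_⟩⟩
          rw [hw, LinearEquiv.trans_apply, h2]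
    · rw [hg', LinearEquiv.trans_apply, h1, h]
  · obtain ⟨g', hg', hg''⟩ := hscale g c hc
    exact ⟨g', hg'', by rw [hg', h]⟩

/-- the vector of the products `∏_{j ≠ i} (t - a j)` -/
def prodv (a : Fin (r + 1) → K) (t : K) : Fin (r + 1) → K := fun i => ∏ j ∈ univ.erase i, (t - a j)

/-- the cone of the curve with the parameters `a` -/
def MemN (a : Fin (r + 1) → K) (w : Fin (r + 1) → K) : Prop :=
  ∃ c : K, c ≠ 0 ∧ ((∃ t : K, w = c • prodv a t) ∨ w = c • (fun _ => 1))

/-- the curve with the parameters `a` is a normal rational curve -/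
theorem curve_of_param {a : Fin (r + 1) → K} (ha : Function.Injective a) :
    ∃ g : (Fin (r + 1) → K) ≃ₗ[K] (Fin (r + 1) → K), (∀ t, g (mom r t) = prodv a t) ∧
      g (mInf K r) = fun _ => 1 := by
  set P : Fin (r + 1) → K[X] := fun i => ∏ j ∈ univ.erase i, (X - C (a j)) with hPdef
  have hmon : ∀ i, (P i).Monic := fun i => monic_prod_of_monic _ _ fun j _ => monic_X_sub_C _
  have hdeg : ∀ i, (P i).natDegree = r := by
    intro i
    simp only [hPdef]
    rw [natDegree_prod_of_monic _ _ fun j _ => monic_X_sub_C _]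
    simp
  have e1 : ∀ t, Lp P (mom r t) = prodv a t := by
    intro t
    ext i
    rw [Lp_mom P (fun i => (hdeg i).le)]
    simp only [hPdef, prodv, eval_prod, eval_sub, eval_X, eval_C]
  have e2 : Lp P (mInf K r) = fun _ => 1 := by
    ext i
    rw [Lp_mInf]
    have := hmon i
    rwa [Monic, leadingCoeff, hdeg] at this
  have htop : LinearMap.range (Lp P) = ⊤ := by
    apply top_of_single
    intro i
    have h1 : prodv a (a i) = (∏ j ∈ univ.erase i, (a i - a j)) • (Pi.single i (1 : K)) := by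
      ext l
      rw [Pi.smul_apply, Pi.single_apply, smul_eq_mul, prodv]
      by_cases hl : l = i
      · rw [if_pos hl, hl, mul_one]
      · rw [if_neg hl, mul_zero]
        exact prod_eq_zero (mem_erase.2 ⟨Ne.symm hl, mem_univ i⟩) (sub_self _)
    have h2 : ∏ j ∈ univ.erase i, (a i - a j) ≠ 0 := by
      refine prod_ne_zero_iff.2 fun j hj => sub_ne_zero.2 fun h => ?_
      exact (mem_erase.1 hj).1 (ha h).symm
    have h3 : (Pi.single i (1 : K) : Fin (r + 1) → K) =
        (∏ j ∈ univ.erase i, (a i - a j))⁻¹ • Lp P (mom r (a i)) := by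
      rw [e1, h1, smul_smul, inv_mul_cancel₀ h2, one_smul]
    rw [h3]
    exact Submodule.smul_mem _ _ ⟨_, rfl⟩
  obtain ⟨g, hg⟩ := exists_equiv (Lp P) htop
  exact ⟨g, fun t => by rw [hg, e1], by rw [hg, e2]⟩

/-- every normal rational curve through the standard frame is the curve of some parameters -/
theorem param_of_curve [Fintype K] (hr : 1 ≤ r) (hq : r < Fintype.card K)
    (g : (Fin (r + 1) → K) ≃ₗ[K] (Fin (r + 1) → K)) (h1 : OnCurve g (fun _ => 1))
    (he : ∀ i, OnCurve g (Pi.single i 1)) :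
    ∃ a : Fin (r + 1) → K, Function.Injective a ∧ ∀ w, OnCurve g w ↔ MemN a w := by
  classical
  obtain ⟨g', hg', hinf⟩ := reparam hq g h1
  set φ : Fin (r + 1) → ((Fin (r + 1) → K) →ₗ[K] K) := fun i =>
    (LinearMap.proj i).comp g'.toLinearMap with hφdef
  have hφ : ∀ i x, φ i x = g' x i := fun i x => rfl
  have hev : ∀ i t, (pf (φ i)).eval t = g' (mom r t) i := fun i t => by rw [pf_eval, hφ]
  have hco : ∀ i, (pf (φ i)).coeff r = 1 := fun i => by rw [pf_top, hφ, hinf]
  have hnd : ∀ i, (pf (φ i)).natDegree = r := fun i =>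
    le_antisymm (pf_natDegree _) (le_natDegree_of_ne_zero (by rw [hco]; exact one_ne_zero))
  have hmon : ∀ i, (pf (φ i)).Monic := fun i => by
    rw [Monic, leadingCoeff, hnd, hco]
  have ha : ∀ i, ∃ s c : K, c ≠ 0 ∧ (Pi.single i (1 : K) : Fin (r + 1) → K) = c • g' (mom r s) := by
    intro i
    obtain ⟨c, hc, ⟨t, h⟩ | h⟩ := (hg' _).2 (he i)
    · exact ⟨t, c, hc, h⟩
    · exfalso
      rw [hinf] at h
      obtain ⟨j, hj⟩ : ∃ j : Fin (r + 1), j ≠ i := by
        have : Nontrivial (Fin (r + 1)) := Fin.nontrivial_iff_two_le.2 (by omega)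
        exact exists_ne i
      have := congrFun h j
      rw [Pi.single_apply, if_neg hj, Pi.smul_apply, smul_eq_mul, mul_one] at this
      exact hc this.symm
  choose a c hc hac using ha
  have hz : ∀ i j, j ≠ i → (pf (φ j)).eval (a i) = 0 := by
    intro i j hj
    have := congrFun (hac i) j
    rw [Pi.single_apply, if_neg hj, Pi.smul_apply, smul_eq_mul] at this
    rw [hev]
    exact (mul_eq_zero.1 this.symm).resolve_left (hc i)
  have hnz : ∀ i, (pf (φ i)).eval (a i) ≠ 0 := by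
    intro i h0
    have := congrFun (hac i) i
    rw [Pi.single_apply, if_pos rfl, Pi.smul_apply, smul_eq_mul, ← hev, h0, mul_zero] at this
    exact one_ne_zero this
  have hinj : Function.Injective a := by
    intro i j hij
    by_contra hne
    apply hnz j
    rw [← hij]
    exact hz i j (Ne.symm hne)
  refine ⟨a, hinj, fun w => ?_⟩
  have hform : ∀ t, g' (mom r t) = prodv a t := by
    intro t
    ext i
    rw [← hev]
    have h2 : pf (φ i) = ∏ j ∈ univ.erase i, (X - C (a j)) := by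
      have hm2 : (∏ j ∈ univ.erase i, (X - C (a j))).Monic :=
        monic_prod_of_monic _ _ fun j _ => monic_X_sub_C _
      have hd2 : (∏ j ∈ univ.erase i, (X - C (a j))).natDegree = r := by
        rw [natDegree_prod_of_monic _ _ fun j _ => monic_X_sub_C _]
        simp
      refine eq_of_degree_sub_lt_of_eval_finset_eq ((univ.erase i).image a) ?_ ?_
      · rw [card_image_of_injective _ hinj, card_erase_of_mem (mem_univ i), card_univ,
          Fintype.card_fin, Nat.add_sub_cancel]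
        have h3 := degree_sub_lt_left (p := pf (φ i)) (q := ∏ j ∈ univ.erase i, (X - C (a j)))
          (by rw [degree_eq_natDegree (hmon i).ne_zero, degree_eq_natDegree hm2.ne_zero, hnd, hd2])
          (hmon i).ne_zero (by rw [(hmon i).leadingCoeff, hm2.leadingCoeff])
        rwa [degree_eq_natDegree (hmon i).ne_zero, hnd] at h3
      · intro x hx
        obtain ⟨j, hj, rfl⟩ := mem_image.1 hx
        rw [hz j i (mem_erase.1 hj).1.symm, eval_prod]
        symm
        exact prod_eq_zero hj (by simp)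
    rw [h2, eval_prod]
    simp [prodv]
  rw [← hg' w, OnCurve, MemN, hinf]
  simp only [hform]

/-- affine images of the parameters give the same curve -/
theorem memN_affine {a b : Fin (r + 1) → K} {α β : K} (hα : α ≠ 0) (h : ∀ i, b i = α * a i + β)
    {w : Fin (r + 1) → K} (hw : MemN a w) : MemN b w := by
  obtain ⟨c, hc, ⟨t, h1⟩ | h1⟩ := hw
  · refine ⟨c * (α ^ r)⁻¹, mul_ne_zero hc (inv_ne_zero (pow_ne_zero _ hα)),
      Or.inl ⟨α * t + β, ?_⟩⟩
    rw [h1, mul_smul]
    congr 1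
    ext i
    rw [Pi.smul_apply, smul_eq_mul, prodv, prodv]
    have : ∀ j, α * t + β - b j = α * (t - a j) := fun j => by rw [h]; ring
    simp only [this]
    rw [prod_mul_distrib, prod_const, card_erase_of_mem (mem_univ i), card_univ, Fintype.card_fin,
      Nat.add_sub_cancel, ← mul_assoc, inv_mul_cancel₀ (pow_ne_zero _ hα), one_mul]
  · exact ⟨c, hc, Or.inr h1⟩

theorem memN_affine_iff {a b : Fin (r + 1) → K} {α β : K} (hα : α ≠ 0)
    (h : ∀ i, b i = α * a i + β) (w : Fin (r + 1) → K) : MemN a w ↔ MemN b w := by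
  refine ⟨memN_affine hα h, memN_affine (inv_ne_zero hα) (β := -(α⁻¹ * β)) fun i => ?_⟩
  rw [h]
  field_simp
  ring

/-- two curves through the frame with one more common point -/
theorem affine_of_common (hr : 1 ≤ r) {a b : Fin (r + 1) → K} {w : Fin (r + 1) → K}
    (ha : MemN a w) (hb : MemN b w) (hw : ∀ i, w i ≠ 0)
    (hne : ∃ i j, w i ≠ w j) : ∃ α β : K, α ≠ 0 ∧ ∀ i, b i = α * a i + β := by
  have key : ∀ a : Fin (r + 1) → K, MemN a w → ∃ t C : K, C ≠ 0 ∧ ∀ i, w i * (t - a i) = C := by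
    rintro a ⟨c, hc, ⟨t, h1⟩ | h1⟩
    · have h2 : ∀ i, w i = c * ∏ j ∈ univ.erase i, (t - a j) := fun i => by rw [h1]; rfl
      have h3 : ∀ j, t - a j ≠ 0 := by
        intro j h0
        obtain ⟨i, hi⟩ : ∃ i : Fin (r + 1), i ≠ j := by
          have : Nontrivial (Fin (r + 1)) := Fin.nontrivial_iff_two_le.2 (by omega)
          exact exists_ne j
        apply hw i
        rw [h2, prod_eq_zero (mem_erase.2 ⟨hi.symm, mem_univ j⟩) h0, mul_zero]
      refine ⟨t, c * ∏ j, (t - a j), mul_ne_zero hc (prod_ne_zero_iff.2 fun j _ => h3 j),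
        fun i => ?_⟩
      rw [h2, mul_assoc, mul_comm _ (t - a i),
        mul_prod_erase univ (fun j => t - a j) (mem_univ i)]
    · exfalso
      obtain ⟨i, j, hij⟩ := hne
      apply hij
      rw [h1]
      rfl
  obtain ⟨t, C, hC, h1⟩ := key a ha
  obtain ⟨u, D, hD, h2⟩ := key b hb
  refine ⟨D / C, u - D / C * t, div_ne_zero hD hC, fun i => ?_⟩
  have h3 := h1 i
  have h4 := h2 i
  have h5 : t - a i = C / w i := by rw [eq_div_iff (hw i), mul_comm]; exact h3
  have h6 : u - b i = D / w i := by rw [eq_div_iff (hw i), mul_comm]; exact h4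
  have h7 : u - b i = D / C * (t - a i) := by
    rw [h5, h6]
    field_simp
  linear_combination -h7

end Pool.Agent.U59.ARC
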