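import Pool.Agent.U59.ARC.A

/-! Normal rational curves and arcs as sets of points. -/

set_option autoImplicit false

namespace Pool.Agent.U59.ARC

open Polynomial Finset
open scoped LinearAlgebra.Projectivization

variable {K : Type} [Field K] {r : ℕ}

/-- `N` is a normal rational curve of `PG(r, K)` -/
def IsNRC (N : Set (ℙ K (Fin (r + 1) → K))) : Prop :=
  ∃ g : (Fin (r + 1) → K) ≃ₗ[K] (Fin (r + 1) → K), ∀ P, P ∈ N ↔ OnCurve g P.rep

/-- at most `r` points of `A` are in any hyperplane -/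
def IsArc (A : Finset (ℙ K (Fin (r + 1) → K))) : Prop :=
  ∀ φ : (Fin (r + 1) → K) →ₗ[K] K, φ ≠ 0 → {P | P ∈ A ∧ φ P.rep = 0}.ncard ≤ r

/-- the normal rational curves which contain `A` -/
def Through (A : Finset (ℙ K (Fin (r + 1) → K))) : Set (Set (ℙ K (Fin (r + 1) → K))) :=
  {N | IsNRC N ∧ ∀ P ∈ A, P ∈ N}

theorem rep_mk (v : Fin (r + 1) → K) (hv : v ≠ 0) :
    ∃ c : K, c ≠ 0 ∧ (Projectivization.mk K v hv).rep = c • v := by
  obtain ⟨a, ha⟩ := Projectivization.exists_smul_eq_mk_rep K v hv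
  exact ⟨a, a.ne_zero, ha.symm⟩

theorem eq_of_smul {P Q : ℙ K (Fin (r + 1) → K)} {c : K} (h : P.rep = c • Q.rep) : P = Q := by
  rw [← P.mk_rep, ← Q.mk_rep, Projectivization.mk_eq_mk_iff']
  exact ⟨c, h.symm⟩

/-- an injective family of more than `r` points of an arc is in no hyperplane -/
theorem IsArc.absurd {A : Finset (ℙ K (Fin (r + 1) → K))} (hA : IsArc A)
    {φ : (Fin (r + 1) → K) →ₗ[K] K} (hφ : φ ≠ 0) (B : Finset (ℙ K (Fin (r + 1) → K)))
    (hB : B ⊆ A) (hr : r < #B) (h0 : ∀ P ∈ B, φ P.rep = 0) : False := by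
  have h1 := hA φ hφ
  have h2 : (B : Set (ℙ K (Fin (r + 1) → K))) ⊆ {P | P ∈ A ∧ φ P.rep = 0} := fun P hP =>
    ⟨hB hP, h0 P hP⟩
  have h3 : {P | P ∈ A ∧ φ P.rep = 0}.Finite := A.finite_toSet.subset fun P hP => hP.1
  have h4 := Set.ncard_le_ncard h2 h3
  rw [Set.ncard_coe_finset] at h4
  omega

theorem IsArc.subset {A B : Finset (ℙ K (Fin (r + 1) → K))} (hA : IsArc A) (hB : B ⊆ A) :
    IsArc B := by
  intro φ hφ
  have h1 : {P | P ∈ B ∧ φ P.rep = 0} ⊆ {P | P ∈ A ∧ φ P.rep = 0} := fun P hP => ⟨hB hP.1, hP.2⟩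
  exact le_trans (Set.ncard_le_ncard h1 (A.finite_toSet.subset fun P hP => hP.1)) (hA φ hφ)

/-- coordinates adapted to `r + 1` points of an arc -/
theorem exists_coords {A : Finset (ℙ K (Fin (r + 1) → K))} (hA : IsArc A)
    (p : Fin (r + 1) → ℙ K (Fin (r + 1) → K)) (hp : Function.Injective p) (hpA : ∀ i, p i ∈ A) :
    ∃ h : (Fin (r + 1) → K) ≃ₗ[K] (Fin (r + 1) → K), ∀ i, h (Pi.single i 1) = (p i).rep := by
  classical
  set L : (Fin (r + 1) → K) →ₗ[K] (Fin (r + 1) → K) :=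
    Fintype.linearCombination K (fun i => (p i).rep) with hL
  have hLs : ∀ i, L (Pi.single i 1) = (p i).rep := by
    intro i
    rw [hL, Fintype.linearCombination_apply_single, one_smul]
  have htop : LinearMap.range L = ⊤ := by
    by_contra hW
    obtain ⟨φ, hφ, hW2⟩ := Submodule.exists_le_ker_of_lt_top _ (lt_top_iff_ne_top.2 hW)
    refine hA.absurd hφ (univ.image p) (image_subset_iff.2 fun i _ => hpA i) ?_ ?_
    · rw [card_image_of_injective _ hp, card_univ, Fintype.card_fin]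
      omega
    · intro P hP
      obtain ⟨i, _, rfl⟩ := mem_image.1 hP
      exact hW2 ⟨_, hLs i⟩
  obtain ⟨g, hg⟩ := exists_equiv L htop
  exact ⟨g, fun i => by rw [hg, hLs]⟩

/-- coordinate `i` vanishes at `p j`, `j ≠ i`; so it does not vanish at a further point -/
theorem coord_ne_zero {A : Finset (ℙ K (Fin (r + 1) → K))} (hA : IsArc A)
    (p : Fin (r + 1) → ℙ K (Fin (r + 1) → K)) (hp : Function.Injective p) (hpA : ∀ i, p i ∈ A)
    (h : (Fin (r + 1) → K) ≃ₗ[K] (Fin (r + 1) → K)) (c : Fin (r + 1) → K) (hc : ∀ i, c i ≠ 0)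
    (hh : ∀ i, h (Pi.single i 1) = c i • (p i).rep)
    {Q : ℙ K (Fin (r + 1) → K)} (hQ : Q ∈ A) (hQp : ∀ i, p i ≠ Q) (i : Fin (r + 1)) :
    h.symm Q.rep i ≠ 0 := by
  classical
  intro h0
  have hs : ∀ j, h.symm (p j).rep = (c j)⁻¹ • (Pi.single j (1 : K)) := by
    intro j
    rw [LinearEquiv.symm_apply_eq, map_smul, hh, smul_smul, inv_mul_cancel₀ (hc j), one_smul]
  refine hA.absurd (φ := (LinearMap.proj i).comp h.symm.toLinearMap) ?_
    (insert Q ((univ.erase i).image p)) ?_ ?_ ?_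
  · intro h1
    have := LinearMap.congr_fun h1 (p i).rep
    simp only [LinearMap.comp_apply, LinearEquiv.coe_coe, LinearMap.proj_apply,
      LinearMap.zero_apply, hs, Pi.smul_apply, Pi.single_eq_same, smul_eq_mul, mul_one] at this
    exact inv_ne_zero (hc i) this
  · exact insert_subset hQ (image_subset_iff.2 fun j _ => hpA j)
  · rw [card_insert_of_notMem, card_image_of_injective _ hp, card_erase_of_mem (mem_univ i),
      card_univ, Fintype.card_fin]
    · omega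
    · intro h1
      obtain ⟨j, _, hj⟩ := mem_image.1 h1
      exact hQp j hj
  · intro P hP
    rcases mem_insert.1 hP with rfl | hP
    · exact h0
    · obtain ⟨j, hj, rfl⟩ := mem_image.1 hP
      simp only [LinearMap.comp_apply, LinearEquiv.coe_coe, LinearMap.proj_apply, hs,
        Pi.smul_apply, smul_eq_mul]
      rw [Pi.single_eq_of_ne (mem_erase.1 hj).1.symm, mul_zero]

/-- coordinates adapted to `r + 2` points of an arc -/
theorem exists_frame {A : Finset (ℙ K (Fin (r + 1) → K))} (hA : IsArc A)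
    (p : Fin (r + 1) → ℙ K (Fin (r + 1) → K)) (hp : Function.Injective p) (hpA : ∀ i, p i ∈ A)
    {U : ℙ K (Fin (r + 1) → K)} (hU : U ∈ A) (hUp : ∀ i, p i ≠ U) :
    ∃ (h : (Fin (r + 1) → K) ≃ₗ[K] (Fin (r + 1) → K)) (c : Fin (r + 1) → K), (∀ i, c i ≠ 0) ∧
      (∀ i, h (Pi.single i 1) = c i • (p i).rep) ∧ h (fun _ => 1) = U.rep := by
  classical
  obtain ⟨g, hg⟩ := exists_coords hA p hp hpA
  have hx : ∀ i, g.symm U.rep i ≠ 0 := coord_ne_zero hA p hp hpA g (fun _ => 1)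
    (fun _ => one_ne_zero) (fun i => by rw [hg, one_smul]) hU hUp
  set x := g.symm U.rep with hxdef
  let D : (Fin (r + 1) → K) ≃ₗ[K] (Fin (r + 1) → K) :=
    LinearEquiv.piCongrRight fun i => LinearEquiv.smulOfNeZero K K (x i) (hx i)
  have hD : ∀ y i, D y i = x i * y i := fun y i => rfl
  refine ⟨D.trans g, x, hx, fun i => ?_, ?_⟩
  · rw [LinearEquiv.trans_apply, ← hg, ← map_smul]
    congr 1
    ext j
    rw [hD, Pi.smul_apply, smul_eq_mul]
    by_cases hj : j = i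
    · rw [hj]
    · rw [Pi.single_eq_of_ne hj, mul_zero, mul_zero]
  · rw [LinearEquiv.trans_apply, ← LinearEquiv.eq_symm_apply]
    ext j
    rw [hD, mul_one]

theorem onCurve_trans (g h : (Fin (r + 1) → K) ≃ₗ[K] (Fin (r + 1) → K)) (v : Fin (r + 1) → K) :
    OnCurve (g.trans h.symm) (h.symm v) ↔ OnCurve g v := by
  constructor
  · rintro ⟨c, hc, ⟨t, h1⟩ | h1⟩
    · refine ⟨c, hc, Or.inl ⟨t, ?_⟩⟩
      rwa [LinearEquiv.trans_apply, ← map_smul, h.symm.injective.eq_iff] at h1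
    · refine ⟨c, hc, Or.inr ?_⟩
      rwa [LinearEquiv.trans_apply, ← map_smul, h.symm.injective.eq_iff] at h1
  · rintro ⟨c, hc, ⟨t, h1⟩ | h1⟩
    · exact ⟨c, hc, Or.inl ⟨t, by rw [h1, map_smul]; rfl⟩⟩
    · exact ⟨c, hc, Or.inr (by rw [h1, map_smul]; rfl)⟩

/-- the curve with the parameters `a` in the coordinates `h` -/
def CurveOf (h : (Fin (r + 1) → K) ≃ₗ[K] (Fin (r + 1) → K)) (a : Fin (r + 1) → K) :
    Set (ℙ K (Fin (r + 1) → K)) :=
  {P | MemN a (h.symm P.rep)}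

theorem memN_smul {a : Fin (r + 1) → K} {c : K} (hc : c ≠ 0) {v : Fin (r + 1) → K}
    (h : MemN a v) : MemN a (c • v) := by
  obtain ⟨d, hd, h⟩ := h
  refine ⟨c * d, mul_ne_zero hc hd, ?_⟩
  rcases h with ⟨t, h⟩ | h
  · exact Or.inl ⟨t, by rw [h, smul_smul]⟩
  · exact Or.inr (by rw [h, smul_smul])

theorem memN_single {a : Fin (r + 1) → K} (ha : Function.Injective a) (i : Fin (r + 1)) :
    MemN a (Pi.single i 1) := by
  have h2 : ∏ j ∈ univ.erase i, (a i - a j) ≠ 0 := by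
    refine prod_ne_zero_iff.2 fun j hj => sub_ne_zero.2 fun h => ?_
    exact (mem_erase.1 hj).1 (ha h).symm
  refine ⟨(∏ j ∈ univ.erase i, (a i - a j))⁻¹, inv_ne_zero h2, Or.inl ⟨a i, ?_⟩⟩
  ext l
  rw [Pi.smul_apply, smul_eq_mul, prodv]
  by_cases hl : l = i
  · rw [hl, Pi.single_eq_same, inv_mul_cancel₀ h2]
  · rw [Pi.single_eq_of_ne hl, prod_eq_zero (mem_erase.2 ⟨Ne.symm hl, mem_univ i⟩) (sub_self _),
      mul_zero]

theorem isNRC_curveOf (h : (Fin (r + 1) → K) ≃ₗ[K] (Fin (r + 1) → K)) {a : Fin (r + 1) → K}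
    (ha : Function.Injective a) : IsNRC (CurveOf h a) := by
  obtain ⟨g, hg1, hg2⟩ := curve_of_param ha
  refine ⟨g.trans h, fun P => ?_⟩
  have h1 : OnCurve (g.trans h) P.rep ↔ OnCurve g (h.symm P.rep) := by
    rw [← onCurve_trans (g.trans h) h]
    have : (g.trans h).trans h.symm = g := by ext x; simp
    rw [this]
  rw [h1, OnCurve, hg2]
  simp only [hg1]
  rfl

/-- the curves through a frame -/
theorem through_frame [Fintype K] (hr : 1 ≤ r) (hq : r < Fintype.card K)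
    (h : (Fin (r + 1) → K) ≃ₗ[K] (Fin (r + 1) → K)) (c : Fin (r + 1) → K) (hc : ∀ i, c i ≠ 0)
    (p : Fin (r + 1) → ℙ K (Fin (r + 1) → K)) (hh : ∀ i, h (Pi.single i 1) = c i • (p i).rep)
    {U : ℙ K (Fin (r + 1) → K)} (hU : h (fun _ => 1) = U.rep)
    (N : Set (ℙ K (Fin (r + 1) → K))) :
    (IsNRC N ∧ (∀ i, p i ∈ N) ∧ U ∈ N) ↔
      ∃ a : Fin (r + 1) → K, Function.Injective a ∧ N = CurveOf h a := by
  have hs : ∀ j, h.symm (p j).rep = (c j)⁻¹ • (Pi.single j (1 : K)) := by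
    intro j
    rw [LinearEquiv.symm_apply_eq, map_smul, hh, smul_smul, inv_mul_cancel₀ (hc j), one_smul]
  have hUs : h.symm U.rep = fun _ => 1 := by
    rw [LinearEquiv.symm_apply_eq, hU]
  constructor
  · rintro ⟨⟨g, hg⟩, hp, hUN⟩
    have h1 : OnCurve (g.trans h.symm) (fun _ => 1) := by
      rw [← hUs, onCurve_trans]
      exact (hg U).1 hUN
    have h2 : ∀ i, OnCurve (g.trans h.symm) (Pi.single i 1) := by
      intro i
      have h3 := (onCurve_trans g h _).2 ((hg _).1 (hp i))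
      rw [hs, onCurve_smul_iff _ (inv_ne_zero (hc i))] at h3
      exact h3
    obtain ⟨a, ha, haw⟩ := param_of_curve hr hq _ h1 h2
    refine ⟨a, ha, Set.ext fun P => ?_⟩
    rw [hg P, ← onCurve_trans g h, haw]
    rfl
  · rintro ⟨a, ha, rfl⟩
    refine ⟨isNRC_curveOf h ha, fun i => ?_, ?_⟩
    · change MemN a (h.symm (p i).rep)
      rw [hs]
      exact memN_smul (inv_ne_zero (hc i)) (memN_single ha i)
    · change MemN a (h.symm U.rep)
      rw [hUs]
      exact ⟨1, one_ne_zero, Or.inr (one_smul _ _).symm⟩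

theorem curveOf_affine (h : (Fin (r + 1) → K) ≃ₗ[K] (Fin (r + 1) → K)) {a b : Fin (r + 1) → K}
    {α β : K} (hα : α ≠ 0) (hab : ∀ i, b i = α * a i + β) : CurveOf h a = CurveOf h b :=
  Set.ext fun _ => memN_affine_iff hα hab _

/-- a further point has coordinates which are not all equal -/
theorem coord_not_const {h : (Fin (r + 1) → K) ≃ₗ[K] (Fin (r + 1) → K)}
    {U Q : ℙ K (Fin (r + 1) → K)} (hU : h (fun _ => 1) = U.rep) (hQU : Q ≠ U) :
    ∃ i j, h.symm Q.rep i ≠ h.symm Q.rep j := by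
  by_contra hcon
  push Not at hcon
  apply hQU
  apply eq_of_smul (c := h.symm Q.rep 0)
  rw [← hU, ← map_smul, ← LinearEquiv.symm_apply_eq]
  ext i
  rw [Pi.smul_apply, smul_eq_mul, mul_one]
  exact hcon i 0

end Pool.Agent.U59.ARC
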