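import Pool.Agent.U59.ARC.B

/-! Uniqueness and existence of the curves through many points; a normal rational curve is an arc
of `q + 1` points. -/

set_option autoImplicit false

namespace Pool.Agent.U59.ARC

open Polynomial Finset
open scoped LinearAlgebra.Projectivization

variable {K : Type} [Field K] {r : ℕ}

/-- distinct points of a finite set -/
theorem exists_points {A : Finset (ℙ K (Fin (r + 1) → K))} {m : ℕ} (h : m ≤ #A) :
    ∃ e : Fin m → ℙ K (Fin (r + 1) → K), Function.Injective e ∧ ∀ i, e i ∈ A := by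
  obtain ⟨B, hB, hBm⟩ := exists_subset_card_eq h
  refine ⟨fun i => ((B.equivFinOfCardEq hBm).symm i : ℙ K (Fin (r + 1) → K)),
    fun i j hij => (B.equivFinOfCardEq hBm).symm.injective (Subtype.ext hij), fun i => hB ?_⟩
  exact ((B.equivFinOfCardEq hBm).symm i).2

/-- two normal rational curves with `r + 3` common points are equal -/
theorem unique_through [Fintype K] (hr : 1 ≤ r) (hq : r < Fintype.card K)
    {A : Finset (ℙ K (Fin (r + 1) → K))} (hA : IsArc A) (hcard : r + 3 ≤ #A)
    {N M : Set (ℙ K (Fin (r + 1) → K))} (hN : N ∈ Through A) (hM : M ∈ Through A) : N = M := by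
  obtain ⟨e, he, heA⟩ := exists_points (m := r + 3) hcard
  set p : Fin (r + 1) → ℙ K (Fin (r + 1) → K) := fun i => e (i.castSucc.castSucc) with hpdef
  have hp : Function.Injective p := fun i j hij => by
    have := he hij
    simpa using this
  have hU : ∀ i, p i ≠ e (Fin.last (r + 1)).castSucc := by
    intro i hi
    have := he hi
    rw [Fin.castSucc_inj] at this
    exact (Fin.castSucc_lt_last i).ne this
  have hQ : ∀ i, p i ≠ e (Fin.last (r + 2)) := by
    intro i hi
    exact (Fin.castSucc_lt_last _).ne (he hi)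
  have hQU : e (Fin.last (r + 2)) ≠ e (Fin.last (r + 1)).castSucc := by
    intro hi
    exact (Fin.castSucc_lt_last _).ne (he hi).symm
  obtain ⟨h, c, hc, hh, hhU⟩ := exists_frame hA p hp (fun i => heA _) (heA _) hU
  obtain ⟨a, ha, rfl⟩ := (through_frame hr hq h c hc p hh hhU N).1
    ⟨hN.1, fun i => hN.2 _ (heA _), hN.2 _ (heA _)⟩
  obtain ⟨b, hb, rfl⟩ := (through_frame hr hq h c hc p hh hhU M).1
    ⟨hM.1, fun i => hM.2 _ (heA _), hM.2 _ (heA _)⟩
  obtain ⟨α, β, hα, hab⟩ := affine_of_common hr (hN.2 _ (heA (Fin.last (r + 2))))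
    (hM.2 _ (heA (Fin.last (r + 2)))) (coord_ne_zero hA p hp (fun i => heA _) h c hc hh (heA _) hQ)
    (coord_not_const hhU hQU)
  exact curveOf_affine h hα hab

/-- `r + 3` points of an arc are on a normal rational curve -/
theorem exists_through [Fintype K] (hr : 1 ≤ r) (hq : r < Fintype.card K)
    {A : Finset (ℙ K (Fin (r + 1) → K))} (hA : IsArc A) (hcard : #A = r + 3) :
    ∃ N, N ∈ Through A := by
  classical
  obtain ⟨e, he, heA⟩ := exists_points (m := r + 3) hcard.ge
  have hsurj : ∀ P ∈ A, ∃ i, e i = P := by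
    have h1 : univ.image e = A := by
      refine eq_of_subset_of_card_le (image_subset_iff.2 fun i _ => heA i) ?_
      rw [card_image_of_injective _ he, card_univ, Fintype.card_fin, hcard]
    intro P hP
    rw [← h1] at hP
    obtain ⟨i, _, hi⟩ := mem_image.1 hP
    exact ⟨i, hi⟩
  set p : Fin (r + 1) → ℙ K (Fin (r + 1) → K) := fun i => e (i.castSucc.castSucc) with hpdef
  have hp : Function.Injective p := fun i j hij => by
    have := he hij
    simpa using this
  have hU : ∀ i, p i ≠ e (Fin.last (r + 1)).castSucc := by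
    intro i hi
    have := he hi
    rw [Fin.castSucc_inj] at this
    exact (Fin.castSucc_lt_last i).ne this
  have hQ : ∀ i, p i ≠ e (Fin.last (r + 2)) := by
    intro i hi
    exact (Fin.castSucc_lt_last _).ne (he hi)
  have hQU : e (Fin.last (r + 2)) ≠ e (Fin.last (r + 1)).castSucc := by
    intro hi
    exact (Fin.castSucc_lt_last _).ne (he hi).symm
  obtain ⟨h, c, hc, hh, hhU⟩ := exists_frame hA p hp (fun i => heA _) (heA _) hU
  have hs : ∀ j, h.symm (p j).rep = (c j)⁻¹ • (Pi.single j (1 : K)) := by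
    intro j
    rw [LinearEquiv.symm_apply_eq, map_smul, hh, smul_smul, inv_mul_cancel₀ (hc j), one_smul]
  have hUs : h.symm (e (Fin.last (r + 1)).castSucc).rep = fun _ => 1 := by
    rw [LinearEquiv.symm_apply_eq, hhU]
  set w := h.symm (e (Fin.last (r + 2))).rep with hwdef
  have hw0 : ∀ i, w i ≠ 0 := coord_ne_zero hA p hp (fun i => heA _) h c hc hh (heA _) hQ
  have hwinj : Function.Injective w := by
    intro i j hij
    by_contra hne
    refine hA.absurd (φ := ((LinearMap.proj i : (Fin (r + 1) → K) →ₗ[K] K) -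
      (LinearMap.proj j : (Fin (r + 1) → K) →ₗ[K] K)).comp h.symm.toLinearMap) ?_
      (insert (e (Fin.last (r + 2))) (insert (e (Fin.last (r + 1)).castSucc)
        (((univ.erase i).erase j).image p))) ?_ ?_ ?_
    · intro h1
      have := LinearMap.congr_fun h1 (p i).rep
      simp only [LinearMap.comp_apply, LinearEquiv.coe_coe, LinearMap.sub_apply,
        LinearMap.proj_apply, LinearMap.zero_apply, hs, Pi.smul_apply, Pi.single_eq_same,
        smul_eq_mul, mul_one] at this
      rw [Pi.single_eq_of_ne (Ne.symm hne), mul_zero, sub_zero] at this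
      exact inv_ne_zero (hc i) this
    · exact insert_subset (heA _) (insert_subset (heA _) (image_subset_iff.2 fun l _ => heA _))
    · have h4 : j ∈ univ.erase i := mem_erase.2 ⟨Ne.symm hne, mem_univ j⟩
      have h5 := card_pos.2 ⟨j, h4⟩
      rw [card_insert_of_notMem, card_insert_of_notMem, card_image_of_injective _ hp,
        card_erase_of_mem h4]
      · rw [card_erase_of_mem (mem_univ i), card_univ, Fintype.card_fin] at h5 ⊢
        omega
      · intro h1
        obtain ⟨l, _, hl⟩ := mem_image.1 h1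
        exact hU l hl
      · intro h1
        rcases mem_insert.1 h1 with h1 | h1
        · exact hQU h1
        · obtain ⟨l, _, hl⟩ := mem_image.1 h1
          exact hQ l hl
    · intro P hP
      rw [LinearMap.comp_apply, LinearMap.sub_apply, LinearMap.proj_apply, LinearMap.proj_apply,
        LinearEquiv.coe_coe, sub_eq_zero]
      rcases mem_insert.1 hP with rfl | hP
      · exact hij
      · rcases mem_insert.1 hP with rfl | hP
        · rw [hUs]
        · obtain ⟨l, hl, rfl⟩ := mem_image.1 hP
          rw [hs, Pi.smul_apply, Pi.smul_apply, Pi.single_eq_of_ne, Pi.single_eq_of_ne]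
          · exact (mem_erase.1 hl).1.symm
          · exact (mem_erase.1 (mem_erase.1 hl).2).1.symm
  set a : Fin (r + 1) → K := fun i => -(w i)⁻¹ with hadef
  have ha : Function.Injective a := fun i j hij => hwinj (inv_injective (neg_injective hij))
  refine ⟨CurveOf h a, isNRC_curveOf h ha, fun P hP => ?_⟩
  obtain ⟨_, h2, h3⟩ := (through_frame hr hq h c hc p hh hhU (CurveOf h a)).2 ⟨a, ha, rfl⟩
  obtain ⟨i, rfl⟩ := hsurj P hP
  induction i using Fin.lastCases with
  | last =>
    change MemN a w
    refine ⟨∏ j, w j, prod_ne_zero_iff.2 fun j _ => hw0 j, Or.inl ⟨0, ?_⟩⟩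
    ext i
    rw [Pi.smul_apply, smul_eq_mul, prodv]
    have h5 : ∀ j, 0 - a j = (w j)⁻¹ := fun j => by simp [hadef]
    simp only [h5]
    rw [← mul_prod_erase univ w (mem_univ i), mul_assoc, ← prod_mul_distrib]
    rw [prod_eq_one fun j _ => mul_inv_cancel₀ (hw0 j), mul_one]
  | cast i =>
    induction i using Fin.lastCases with
    | last => exact h3
    | cast i => exact h2 i

/-- the points of a curve -/
theorem curve_points (hr : 1 ≤ r) (g : (Fin (r + 1) → K) ≃ₗ[K] (Fin (r + 1) → K)) :
    ∃ pt : Option K → ℙ K (Fin (r + 1) → K), Function.Injective pt ∧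
      (∀ P, OnCurve g P.rep ↔ ∃ x, pt x = P) ∧
      (∀ t, ∃ c : K, c ≠ 0 ∧ (pt (some t)).rep = c • g (mom r t)) ∧
      ∃ c : K, c ≠ 0 ∧ (pt none).rep = c • g (mInf K r) := by
  have hm : ∀ t : K, mom r t (Fin.last r) = 1 := fun t => by simp [mom]
  have hi : mInf K r (Fin.last r) = 0 := by
    rw [mInf, Pi.single_eq_of_ne]
    intro h
    have := congrArg Fin.val h
    simp at this
    omega
  have h1 : ∀ t : K, g (mom r t) ≠ 0 := by
    intro t h
    rw [LinearEquiv.map_eq_zero_iff] at h
    have := congrFun h (Fin.last r)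
    rw [hm] at this
    exact one_ne_zero this
  have h2 : g (mInf K r) ≠ 0 := by
    intro h
    rw [LinearEquiv.map_eq_zero_iff] at h
    have := congrFun h 0
    rw [mInf, Pi.single_eq_same] at this
    exact one_ne_zero this
  let pt : Option K → ℙ K (Fin (r + 1) → K) := fun x =>
    x.elim (Projectivization.mk K _ h2) fun t => Projectivization.mk K _ (h1 t)
  have h3 : ∀ t, ∃ c : K, c ≠ 0 ∧ (pt (some t)).rep = c • g (mom r t) := fun t => rep_mk _ (h1 t)
  have h4 : ∃ c : K, c ≠ 0 ∧ (pt none).rep = c • g (mInf K r) := rep_mk _ h2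
  refine ⟨pt, ?_, fun P => ?_, h3, h4⟩
  · have key : ∀ t s : K, pt (some t) = pt (some s) → t = s := by
      intro t s h
      obtain ⟨c, hc⟩ := (Projectivization.mk_eq_mk_iff' K _ _ (h1 t) (h1 s)).1 h
      rw [← map_smul, g.injective.eq_iff] at hc
      have h5 := congrFun hc (Fin.last r)
      rw [Pi.smul_apply, hm, hm, smul_eq_mul, mul_one] at h5
      subst h5
      rw [one_smul] at hc
      have h6 := congrFun hc ⟨r - 1, by omega⟩
      simp only [mom] at h6
      have h7 : r - (r - 1) = 1 := by omega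
      rw [h7, pow_one, pow_one] at h6
      exact h6.symm
    have key2 : ∀ t : K, pt (some t) ≠ pt none := by
      intro t h
      obtain ⟨c, hc⟩ := (Projectivization.mk_eq_mk_iff' K _ _ (h1 t) h2).1 h
      rw [← map_smul, g.injective.eq_iff] at hc
      have h5 := congrFun hc (Fin.last r)
      rw [Pi.smul_apply, hm, hi, smul_zero] at h5
      exact zero_ne_one h5
    rintro (_ | t) (_ | s) h
    · rfl
    · exact absurd h.symm (key2 s)
    · exact absurd h (key2 t)
    · rw [key t s h]
  · constructor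
    · rintro ⟨c, hc, ⟨t, h⟩ | h⟩
      · refine ⟨some t, ?_⟩
        obtain ⟨d, hd, hd2⟩ := h3 t
        apply eq_of_smul (c := d * c⁻¹)
        rw [hd2, h, smul_smul, mul_assoc, inv_mul_cancel₀ hc, mul_one]
      · refine ⟨none, ?_⟩
        obtain ⟨d, hd, hd2⟩ := h4
        apply eq_of_smul (c := d * c⁻¹)
        rw [hd2, h, smul_smul, mul_assoc, inv_mul_cancel₀ hc, mul_one]
    · rintro ⟨_ | t, rfl⟩
      · obtain ⟨d, hd, hd2⟩ := h4
        exact ⟨d, hd, Or.inr hd2⟩
      · obtain ⟨d, hd, hd2⟩ := h3 t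
        exact ⟨d, hd, Or.inl ⟨t, hd2⟩⟩

theorem ncard_nrc [Fintype K] (hr : 1 ≤ r) {N : Set (ℙ K (Fin (r + 1) → K))} (hN : IsNRC N) :
    N.ncard = Fintype.card K + 1 := by
  obtain ⟨g, hg⟩ := hN
  obtain ⟨pt, hpt, h1, -, -⟩ := curve_points hr g
  have h2 : N = Set.range pt := Set.ext fun P => (hg P).trans (h1 P)
  rw [h2, ← Set.image_univ, Set.ncard_image_of_injective _ hpt, Set.ncard_univ, Nat.card_eq_fintype_card,
    Fintype.card_option]

theorem finite_nrc [Fintype K] (hr : 1 ≤ r) {N : Set (ℙ K (Fin (r + 1) → K))} (hN : IsNRC N) :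
    N.Finite := by
  obtain ⟨g, hg⟩ := hN
  obtain ⟨pt, hpt, h1, -, -⟩ := curve_points hr g
  have h2 : N = Set.range pt := Set.ext fun P => (hg P).trans (h1 P)
  rw [h2]
  exact Set.finite_range pt

/-- finite subsets of a normal rational curve are arcs -/
theorem arc_nrc (hr : 1 ≤ r) {N : Set (ℙ K (Fin (r + 1) → K))} (hN : IsNRC N)
    {A : Finset (ℙ K (Fin (r + 1) → K))} (hA : ∀ P ∈ A, P ∈ N) : IsArc A := by
  classical
  obtain ⟨g, hg⟩ := hN
  obtain ⟨pt, hpt, h1, h3, h4⟩ := curve_points hr g
  intro φ hφ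
  set ψ := φ.comp g.toLinearMap with hψ
  have hψ0 : ψ ≠ 0 := by
    intro h
    apply hφ
    refine LinearMap.ext fun x => ?_
    have := LinearMap.congr_fun h (g.symm x)
    simpa [hψ] using this
  set f := pf ψ with hf
  have hf0 : f ≠ 0 := fun h => hψ0 (eq_zero_of_pf h)
  set R : Finset (ℙ K (Fin (r + 1) → K)) := f.roots.toFinset.image fun t => pt (some t) with hR
  have hRcard : #R ≤ f.natDegree :=
    card_image_le.trans ((Multiset.toFinset_card_le _).trans (card_roots' f))
  have hroot : ∀ t, φ (pt (some t)).rep = 0 → pt (some t) ∈ R := by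
    intro t ht
    obtain ⟨c, hc, hct⟩ := h3 t
    rw [hct, map_smul, smul_eq_mul] at ht
    refine mem_image_of_mem _ ?_
    rw [Multiset.mem_toFinset, mem_roots hf0, IsRoot.def, hf, pf_eval]
    exact (mul_eq_zero.1 ht).resolve_left hc
  by_cases htop : f.coeff r = 0
  · have hlt : f.natDegree < r := by
      refine lt_of_le_of_ne (pf_natDegree ψ) fun h => ?_
      apply hf0
      rw [← leadingCoeff_eq_zero, leadingCoeff, h, htop]
    have h5 : {P | P ∈ A ∧ φ P.rep = 0} ⊆ ((insert (pt none) R : Finset _) : Set _) := by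
      rintro P ⟨hPA, hP0⟩
      obtain ⟨x, rfl⟩ := (h1 P).1 ((hg P).1 (hA P hPA))
      rcases x with _ | t
      · simp
      · exact mem_coe.2 (mem_insert_of_mem (hroot t hP0))
    have h6 := Set.ncard_le_ncard h5 (Finset.finite_toSet _)
    rw [Set.ncard_coe_finset] at h6
    have h7 := card_insert_le (pt none) R
    omega
  · have h5 : {P | P ∈ A ∧ φ P.rep = 0} ⊆ (R : Set _) := by
      rintro P ⟨hPA, hP0⟩
      obtain ⟨x, rfl⟩ := (h1 P).1 ((hg P).1 (hA P hPA))
      rcases x with _ | t
      · exfalso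
        obtain ⟨c, hc, hct⟩ := h4
        rw [hct, map_smul, smul_eq_mul] at hP0
        apply htop
        rw [hf, pf_top]
        exact (mul_eq_zero.1 hP0).resolve_left hc
      · exact mem_coe.2 (hroot t hP0)
    have h6 := Set.ncard_le_ncard h5 (Finset.finite_toSet _)
    rw [Set.ncard_coe_finset] at h6
    exact h6.trans (hRcard.trans (pf_natDegree ψ))

end Pool.Agent.U59.ARC
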