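import Pool.Agent.U59.ARC.C

/-! The number of normal rational curves through `r + 2` and `r + 1` points of an arc. -/

set_option autoImplicit false

namespace Pool.Agent.U59.ARC

open Polynomial Finset
open scoped LinearAlgebra.Projectivization

variable {K : Type} [Field K] {m : ℕ}

/-- normalised parameters `0, 1, b_1, ..., b_m` -/
def nt (b : Fin m ↪ {x : K // x ≠ 0 ∧ x ≠ 1}) : Fin (m + 1 + 1) → K :=
  Fin.cons 0 (Fin.cons 1 fun i => (b i : K))

theorem nt_zero (b : Fin m ↪ {x : K // x ≠ 0 ∧ x ≠ 1}) : nt b 0 = 0 := rfl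

theorem nt_one (b : Fin m ↪ {x : K // x ≠ 0 ∧ x ≠ 1}) : nt b (Fin.succ 0) = 1 := rfl

theorem nt_succ (b : Fin m ↪ {x : K // x ≠ 0 ∧ x ≠ 1}) (i : Fin m) :
    nt b i.succ.succ = b i := rfl

theorem nt_injective (b : Fin m ↪ {x : K // x ≠ 0 ∧ x ≠ 1}) : Function.Injective (nt b) := by
  unfold nt
  rw [Fin.cons_injective_iff, Fin.cons_injective_iff]
  refine ⟨?_, ?_, fun i j hij => b.injective (Subtype.ext hij)⟩
  · rintro ⟨i, hi⟩
    induction i using Fin.cases with
    | zero => exact one_ne_zero hi
    | succ i => exact (b i).2.1 hi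
  · rintro ⟨i, hi⟩
    exact (b i).2.2 hi

theorem exists_nt {a : Fin (m + 1 + 1) → K} (ha : Function.Injective a) :
    ∃ (b : Fin m ↪ {x : K // x ≠ 0 ∧ x ≠ 1}) (α β : K), α ≠ 0 ∧ ∀ i, nt b i = α * a i + β := by
  have hd : a (Fin.succ 0) - a 0 ≠ 0 := sub_ne_zero.2 fun h => absurd (ha h) (Fin.succ_ne_zero _)
  set d := a (Fin.succ 0) - a 0 with hddef
  have h0 : ∀ i : Fin m, (a i.succ.succ - a 0) / d ≠ 0 := fun i =>
    div_ne_zero (sub_ne_zero.2 fun h => absurd (ha h) (Fin.succ_ne_zero _)) hd
  have h1 : ∀ i : Fin m, (a i.succ.succ - a 0) / d ≠ 1 := by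
    intro i h
    rw [div_eq_one_iff_eq hd, hddef, sub_left_inj] at h
    have := Fin.succ_injective _ (ha h)
    exact Fin.succ_ne_zero _ this
  refine ⟨⟨fun i => ⟨(a i.succ.succ - a 0) / d, h0 i, h1 i⟩, fun i j hij => ?_⟩, d⁻¹, -(a 0 / d),
    inv_ne_zero hd, fun i => ?_⟩
  · have h2 := congrArg Subtype.val hij
    change (a i.succ.succ - a 0) / d = (a j.succ.succ - a 0) / d at h2
    rw [div_left_inj' hd, sub_left_inj] at h2
    exact Fin.succ_injective _ (Fin.succ_injective _ (ha h2))
  · induction i using Fin.cases with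
    | zero =>
      rw [nt_zero]
      field_simp
      ring
    | succ i =>
      induction i using Fin.cases with
      | zero =>
        rw [nt_one]
        field_simp
        rw [hddef]
        ring
      | succ i =>
        rw [nt_succ]
        change (a i.succ.succ - a 0) / d = _
        field_simp
        ring

omit [Field K] in
theorem exists_notMem [Fintype K] {r : ℕ} (hq : r + 1 < Fintype.card K) (a : Fin (r + 1) → K) :
    ∃ t, ∀ i, t ≠ a i := by
  classical
  by_contra hcon
  push Not at hcon
  have h1 : univ ⊆ univ.image a := fun t _ => by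
    obtain ⟨i, hi⟩ := hcon t
    exact mem_image.2 ⟨i, mem_univ i, hi.symm⟩
  have h2 := card_le_card h1
  have h3 : #(univ.image a) ≤ r + 1 := by
    refine card_image_le.trans ?_
    rw [card_univ, Fintype.card_fin]
  rw [card_univ] at h2
  omega

theorem curveOf_nt_injective [Fintype K] (hq : m + 1 + 1 < Fintype.card K)
    (h : (Fin (m + 1 + 1) → K) ≃ₗ[K] (Fin (m + 1 + 1) → K)) :
    Function.Injective fun b : Fin m ↪ {x : K // x ≠ 0 ∧ x ≠ 1} => CurveOf h (nt b) := by
  intro b b' hbb
  obtain ⟨t, ht⟩ := exists_notMem hq (nt b)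
  have hw : ∀ i, prodv (nt b) t i ≠ 0 := fun i =>
    prod_ne_zero_iff.2 fun j _ => sub_ne_zero.2 (ht j)
  have hne : ∃ i j, prodv (nt b) t i ≠ prodv (nt b) t j := by
    refine ⟨0, Fin.succ 0, fun heq => ?_⟩
    have h1 : ∀ i, (t - nt b i) * prodv (nt b) t i = ∏ j, (t - nt b j) := fun i =>
      mul_prod_erase univ (fun j => t - nt b j) (mem_univ i)
    have h2 := (h1 0).trans (h1 (Fin.succ 0)).symm
    rw [heq, nt_zero, nt_one] at h2
    have h3 := mul_right_cancel₀ (hw _) h2
    have h4 : (1 : K) = 0 := by linear_combination h3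
    exact one_ne_zero h4
  have hv : h (prodv (nt b) t) ≠ 0 := by
    intro h0
    rw [LinearEquiv.map_eq_zero_iff] at h0
    exact hw 0 (congrFun h0 0)
  obtain ⟨c, hc, hrep⟩ := rep_mk _ hv
  have h1 : MemN (nt b) (prodv (nt b) t) := ⟨1, one_ne_zero, Or.inl ⟨t, (one_smul _ _).symm⟩⟩
  have h2 : Projectivization.mk K _ hv ∈ CurveOf h (nt b) := by
    change MemN _ _
    rw [hrep, map_smul, LinearEquiv.symm_apply_apply]
    exact memN_smul hc h1
  have h3 : Projectivization.mk K _ hv ∈ CurveOf h (nt b') := by
    have : CurveOf h (nt b) = CurveOf h (nt b') := hbb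
    rwa [← this]
  change MemN _ _ at h3
  rw [hrep, map_smul, LinearEquiv.symm_apply_apply] at h3
  have h4 := memN_smul (inv_ne_zero hc) h3
  rw [smul_smul, inv_mul_cancel₀ hc, one_smul] at h4
  obtain ⟨α, β, hα, hab⟩ := affine_of_common (by omega) h1 h4 hw hne
  have e0 := hab 0
  rw [nt_zero, nt_zero, mul_zero, zero_add] at e0
  have e1 := hab (Fin.succ 0)
  rw [nt_one, nt_one, mul_one, ← e0, add_zero] at e1
  ext i
  have e2 := hab i.succ.succ
  rw [nt_succ, nt_succ, ← e0, ← e1, one_mul, add_zero] at e2
  exact e2.symm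

theorem card_sub_two [Fintype K] : Nat.card {x : K // x ≠ 0 ∧ x ≠ 1} = Fintype.card K - 2 := by
  classical
  rw [Nat.card_eq_fintype_card, Fintype.card_subtype]
  have : (univ.filter fun x : K => x ≠ 0 ∧ x ≠ 1) = (univ.erase 0).erase 1 := by
    ext x
    simp [and_comm]
  rw [this, card_erase_of_mem (mem_erase.2 ⟨one_ne_zero, mem_univ _⟩),
    card_erase_of_mem (mem_univ _), card_univ]
  rfl

theorem count_frame [Fintype K] (hq : m + 1 + 1 < Fintype.card K)
    {A : Finset (ℙ K (Fin (m + 1 + 1) → K))} (hA : IsArc A) (hcard : #A = m + 1 + 2) :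
    (Through A).ncard = (Fintype.card K - 2).descFactorial m := by
  classical
  obtain ⟨e, he, heA⟩ := exists_points (m := m + 1 + 2) hcard.ge
  have hsurj : ∀ P ∈ A, ∃ i, e i = P := by
    have h1 : univ.image e = A := by
      refine eq_of_subset_of_card_le (image_subset_iff.2 fun i _ => heA i) ?_
      rw [card_image_of_injective _ he, card_univ, Fintype.card_fin, hcard]
    intro P hP
    rw [← h1] at hP
    obtain ⟨i, _, hi⟩ := mem_image.1 hP
    exact ⟨i, hi⟩
  set p : Fin (m + 1 + 1) → ℙ K (Fin (m + 1 + 1) → K) := fun i => e i.castSucc with hpdef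
  have hp : Function.Injective p := fun i j hij => by
    have := he hij
    simpa using this
  have hU : ∀ i, p i ≠ e (Fin.last (m + 1 + 1)) := by
    intro i hi
    exact (Fin.castSucc_lt_last _).ne (he hi)
  obtain ⟨h, c, hc, hh, hhU⟩ := exists_frame hA p hp (fun i => heA _) (heA _) hU
  have h1 : Through A = Set.range fun b : Fin m ↪ {x : K // x ≠ 0 ∧ x ≠ 1} =>
      CurveOf h (nt b) := by
    ext N
    have h2 := through_frame (by omega) (by omega) h c hc p hh hhU N
    constructor
    · rintro ⟨hN, hNA⟩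
      obtain ⟨a, ha, rfl⟩ := h2.1 ⟨hN, fun i => hNA _ (heA _), hNA _ (heA _)⟩
      obtain ⟨b, α, β, hα, hb⟩ := exists_nt ha
      exact ⟨b, (curveOf_affine h hα hb).symm⟩
    · rintro ⟨b, rfl⟩
      obtain ⟨h3, h4, h5⟩ := h2.2 ⟨nt b, nt_injective b, rfl⟩
      refine ⟨h3, fun P hP => ?_⟩
      obtain ⟨i, rfl⟩ := hsurj P hP
      induction i using Fin.lastCases with
      | last => exact h5
      | cast i => exact h4 i
  rw [h1, ← Set.image_univ, Set.ncard_image_of_injective _ (curveOf_nt_injective hq h),
    Set.ncard_univ, Nat.card_eq_fintype_card, Fintype.card_embedding_eq, Fintype.card_fin,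
    ← Nat.card_eq_fintype_card, card_sub_two]

/-- the points which extend an arc of `r + 1` points -/
theorem card_extend [Fintype K] {r : ℕ} (hr : 1 ≤ r) {A : Finset (ℙ K (Fin (r + 1) → K))} (hA : IsArc A)
    (hcard : #A = r + 1) [DecidableEq (ℙ K (Fin (r + 1) → K))] :
    {Q | Q ∉ A ∧ IsArc (insert Q A)}.ncard = (Fintype.card K - 1) ^ r := by
  classical
  obtain ⟨p, hp, hpA⟩ := exists_points (m := r + 1) hcard.ge
  have hpim : univ.image p = A := by
    refine eq_of_subset_of_card_le (image_subset_iff.2 fun i _ => hpA i) ?_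
    rw [card_image_of_injective _ hp, card_univ, Fintype.card_fin, hcard]
  obtain ⟨h, hh⟩ := exists_coords hA p hp hpA
  have hs : ∀ j, h.symm (p j).rep = Pi.single j (1 : K) := by
    intro j
    rw [LinearEquiv.symm_apply_eq, hh]
  have hv : ∀ y : Fin r → {x : K // x ≠ 0}, h (Fin.cons 1 fun i => (y i : K)) ≠ 0 := by
    intro y h0
    rw [LinearEquiv.map_eq_zero_iff] at h0
    exact one_ne_zero (congrFun h0 0)
  have h1 : {Q | Q ∉ A ∧ IsArc (insert Q A)} =
      Set.range fun y : Fin r → {x : K // x ≠ 0} => Projectivization.mk K _ (hv y) := by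
    ext Q
    constructor
    · rintro ⟨hQ, hQA⟩
      have hx : ∀ i, h.symm Q.rep i ≠ 0 := by
        refine coord_ne_zero hQA p hp (fun i => mem_insert_of_mem (hpA i)) h (fun _ => 1)
          (fun _ => one_ne_zero) (fun i => by rw [hh, one_smul]) (mem_insert_self _ _) ?_
        rintro i rfl
        exact hQ (hpA i)
      set x := h.symm Q.rep with hxdef
      refine ⟨fun i => ⟨x i.succ / x 0, div_ne_zero (hx _) (hx _)⟩, ?_⟩
      have h2 : (Fin.cons 1 fun i => x i.succ / x 0 : Fin (r + 1) → K) = (x 0)⁻¹ • x := by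
        ext i
        induction i using Fin.cases with
        | zero => rw [Pi.smul_apply, smul_eq_mul, inv_mul_cancel₀ (hx 0)]; rfl
        | succ i =>
          rw [Pi.smul_apply, smul_eq_mul]
          change x i.succ / x 0 = _
          rw [div_eq_inv_mul]
      obtain ⟨c, hc, hc2⟩ := rep_mk _ (hv fun i => ⟨x i.succ / x 0, div_ne_zero (hx _) (hx _)⟩)
      apply eq_of_smul (c := c * (x 0)⁻¹)
      have h3 : h x = Q.rep := by rw [hxdef, LinearEquiv.apply_symm_apply]
      change (Projectivization.mk K _ (hv fun i =>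
        ⟨x i.succ / x 0, div_ne_zero (hx _) (hx _)⟩)).rep = _
      rw [hc2]
      change c • h (Fin.cons 1 fun i => x i.succ / x 0) = _
      rw [h2, map_smul, h3, smul_smul]
    · rintro ⟨y, rfl⟩
      obtain ⟨c, hc, hc2⟩ := rep_mk _ (hv y)
      set Q := Projectivization.mk K _ (hv y) with hQdef
      have hw : ∀ i, h.symm Q.rep i ≠ 0 := by
        intro i
        rw [hc2, map_smul, LinearEquiv.symm_apply_apply, Pi.smul_apply, smul_eq_mul]
        refine mul_ne_zero hc ?_
        induction i using Fin.cases with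
        | zero => exact one_ne_zero
        | succ i => exact (y i).2
      change Q ∉ A ∧ IsArc (insert Q A)
      refine ⟨fun hQA => ?_, fun φ hφ => ?_⟩
      · rw [← hpim] at hQA
        obtain ⟨j, _, hj⟩ := mem_image.1 hQA
        obtain ⟨i, hi⟩ : ∃ i : Fin (r + 1), i ≠ j := by
          have : Nontrivial (Fin (r + 1)) := Fin.nontrivial_iff_two_le.2 (by omega)
          exact exists_ne j
        apply hw i
        rw [← hj, hs, Pi.single_eq_of_ne hi]
      · have hsum : φ Q.rep = ∑ j, h.symm Q.rep j * φ (p j).rep := by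
          have h3 : Q.rep = h (h.symm Q.rep) := (h.apply_symm_apply _).symm
          conv_lhs => rw [h3, vec_eq (h.symm Q.rep)]
          rw [map_sum, map_sum]
          refine sum_congr rfl fun j _ => ?_
          rw [map_smul, map_smul, hh, smul_eq_mul]
        set Z : Finset (Fin (r + 1)) := univ.filter fun i => φ (p i).rep = 0 with hZ
        have hZA : ((Z.image p : Finset _) : Set (ℙ K (Fin (r + 1) → K))) ⊆
            {P | P ∈ A ∧ φ P.rep = 0} := by
          intro P hP
          obtain ⟨i, hi, rfl⟩ := mem_image.1 (mem_coe.1 hP)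
          exact ⟨hpA i, (mem_filter.1 hi).2⟩
        have hZr : #Z ≤ r := by
          have h3 := Set.ncard_le_ncard hZA (A.finite_toSet.subset fun P hP => hP.1)
          rw [Set.ncard_coe_finset, card_image_of_injective _ hp] at h3
          exact h3.trans (hA φ hφ)
        have hAZ : ∀ P ∈ A, φ P.rep = 0 → P ∈ Z.image p := by
          intro P hP hP0
          rw [← hpim] at hP
          obtain ⟨i, _, rfl⟩ := mem_image.1 hP
          exact mem_image_of_mem _ (mem_filter.2 ⟨mem_univ _, hP0⟩)
        by_cases hQ0 : φ Q.rep = 0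
        · have hZlt : #Z < r := by
            refine lt_of_le_of_ne hZr fun hZe => ?_
            have h4 : #(Zᶜ) = 1 := by
              rw [card_compl, Fintype.card_fin, hZe]
              omega
            obtain ⟨i0, hi0⟩ := card_eq_one.1 h4
            have h5 : ∀ j, j ≠ i0 → φ (p j).rep = 0 := by
              intro j hj
              by_contra h6
              have : j ∈ Zᶜ := by
                rw [mem_compl, hZ, mem_filter]
                exact fun h7 => h6 h7.2
              rw [hi0, mem_singleton] at this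
              exact hj this
            have h6 : φ (p i0).rep ≠ 0 := by
              have : i0 ∈ Zᶜ := by rw [hi0]; exact mem_singleton_self _
              rw [mem_compl, hZ, mem_filter] at this
              exact fun h7 => this ⟨mem_univ _, h7⟩
            rw [hsum, Finset.sum_eq_single i0 (fun j _ hj => by rw [h5 j hj, mul_zero])
              (fun h7 => absurd (mem_univ _) h7)] at hQ0
            exact (mul_ne_zero (hw i0) h6) hQ0
          have h7 : {P | P ∈ insert Q A ∧ φ P.rep = 0} ⊆
              ((insert Q (Z.image p) : Finset _) : Set _) := by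
            rintro P ⟨hP, hP0⟩
            rcases mem_insert.1 hP with rfl | hP
            · simp
            · exact mem_coe.2 (mem_insert_of_mem (hAZ P hP hP0))
          have h8 := Set.ncard_le_ncard h7 (Finset.finite_toSet _)
          rw [Set.ncard_coe_finset] at h8
          have h9 := card_insert_le Q (Z.image p)
          rw [card_image_of_injective _ hp] at h9
          omega
        · have h7 : {P | P ∈ insert Q A ∧ φ P.rep = 0} ⊆
              ((Z.image p : Finset _) : Set _) := by
            rintro P ⟨hP, hP0⟩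
            rcases mem_insert.1 hP with rfl | hP
            · exact absurd hP0 hQ0
            · exact mem_coe.2 (hAZ P hP hP0)
          have h8 := Set.ncard_le_ncard h7 (Finset.finite_toSet _)
          rw [Set.ncard_coe_finset, card_image_of_injective _ hp] at h8
          omega
  have hinj : Function.Injective fun y : Fin r → {x : K // x ≠ 0} =>
      Projectivization.mk K _ (hv y) := by
    intro y z hyz
    obtain ⟨c, hc⟩ := (Projectivization.mk_eq_mk_iff' K _ _ (hv y) (hv z)).1 hyz
    rw [← map_smul, h.injective.eq_iff] at hc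
    have h3 := congrFun hc 0
    rw [Pi.smul_apply, Fin.cons_zero, Fin.cons_zero, smul_eq_mul, mul_one] at h3
    subst h3
    rw [one_smul] at hc
    ext i
    have h4 := congrFun hc i.succ
    rw [Fin.cons_succ, Fin.cons_succ] at h4
    exact h4.symm
  have hcard1 : Fintype.card {x : K // x ≠ 0} = Fintype.card K - 1 := by
    rw [Fintype.card_subtype, filter_ne' univ (0 : K), card_erase_of_mem (mem_univ _), card_univ]
  classical
  rw [h1, ← Set.image_univ, Set.ncard_image_of_injective _ hinj, Set.ncard_univ,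
    Nat.card_eq_fintype_card, Fintype.card_fun, Fintype.card_fin, hcard1]

theorem finite_points [Fintype K] {r : ℕ} : Finite (ℙ K (Fin (r + 1) → K)) :=
  Finite.of_injective (fun P : ℙ K (Fin (r + 1) → K) => P.rep) fun P Q h =>
    eq_of_smul (c := 1) (by rw [one_smul]; exact h)

/-- Double counting: curves through `r + 1` points of an arc. -/
theorem count_simplex [Fintype K] (hq : m + 1 + 1 < Fintype.card K)
    {A : Finset (ℙ K (Fin (m + 1 + 1) → K))} (hA : IsArc A) (hcard : #A = m + 1 + 1) :
    (Through A).ncard * (Fintype.card K - (m + 1)) =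
      (Fintype.card K - 1) ^ (m + 1) * (Fintype.card K - 2).descFactorial m := by
  classical
  have hfin : Finite (ℙ K (Fin (m + 1 + 1) → K)) := finite_points
  set S : Finset (Set (ℙ K (Fin (m + 1 + 1) → K))) := (Set.toFinite (Through A)).toFinset with hS
  set U : Set (ℙ K (Fin (m + 1 + 1) → K)) := {Q | Q ∉ A ∧ IsArc (insert Q A)} with hU
  set T : Finset (ℙ K (Fin (m + 1 + 1) → K)) := (Set.toFinite U).toFinset with hT
  have hScard : #S = (Through A).ncard := (Set.ncard_eq_toFinset_card _ _).symm
  have hTcard : #T = (Fintype.card K - 1) ^ (m + 1) := by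
    rw [← card_extend (by omega) hA hcard, ← hU]
    exact (Set.ncard_eq_toFinset_card _ _).symm
  rw [← hScard, ← hTcard]
  refine card_mul_eq_card_mul (fun (N : Set (ℙ K (Fin (m + 1 + 1) → K)))
    (Q : ℙ K (Fin (m + 1 + 1) → K)) => Q ∈ N) ?_ ?_
  · intro N hN
    have hN2 : N ∈ Through A := (Set.Finite.mem_toFinset _).1 hN
    have h1 : ((T.bipartiteAbove (fun N Q => Q ∈ N) N : Finset _) :
        Set (ℙ K (Fin (m + 1 + 1) → K))) = N \ (A : Set _) := by
      ext Q
      rw [mem_coe, mem_bipartiteAbove, hT, Set.Finite.mem_toFinset, hU]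
      constructor
      · rintro ⟨⟨h2, -⟩, h3⟩
        exact ⟨h3, h2⟩
      · rintro ⟨h2, h3⟩
        refine ⟨⟨h3, arc_nrc (by omega) hN2.1 fun P hP => ?_⟩, h2⟩
        rcases mem_insert.1 hP with rfl | hP
        · exact h2
        · exact hN2.2 P hP
    rw [← Set.ncard_coe_finset, h1, Set.ncard_sdiff (fun P hP => hN2.2 P hP) (Finset.finite_toSet A),
      ncard_nrc (by omega) hN2.1, Set.ncard_coe_finset, hcard]
    omega
  · intro Q hQ
    have hQ2 : Q ∈ U := (Set.Finite.mem_toFinset _).1 hQ
    have h1 : ((S.bipartiteBelow (fun N Q => Q ∈ N) Q : Finset _) :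
        Set (Set (ℙ K (Fin (m + 1 + 1) → K)))) = Through (insert Q A) := by
      ext N
      rw [mem_coe, mem_bipartiteBelow, hS, Set.Finite.mem_toFinset]
      constructor
      · rintro ⟨⟨h2, h3⟩, h4⟩
        refine ⟨h2, fun P hP => ?_⟩
        rcases mem_insert.1 hP with rfl | hP
        · exact h4
        · exact h3 P hP
      · rintro ⟨h2, h3⟩
        exact ⟨⟨h2, fun P hP => h3 P (mem_insert_of_mem hP)⟩, h3 Q (mem_insert_self _ _)⟩
    rw [← Set.ncard_coe_finset, h1]
    exact count_frame hq hQ2.2 (by rw [card_insert_of_notMem hQ2.1, hcard])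

end Pool.Agent.U59.ARC
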